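import Pool.Agent.H295R2.Nic.Defs

/-!
# Task N3 of helper295 (by helper231): `ThetaB` from `PsiB`
-/

set_option autoImplicit false

namespace Pool.Agent.H231R2.Nic

open Pool.Agent.H295R2 Pool.Agent.H295R2.Nic

theorem thetaB_of (h : PsiB) : ThetaB := by
  intro θ hθ
  obtain ⟨C, hC⟩ := h θ hθ
  obtain ⟨C', hC'⟩ := Chebyshev.psi_sub_theta_le_mul_sqrt
  have hhalf : (1 / 2 : ℝ) ≤ θ := half_le_zetaSup.trans hθ.le
  refine ⟨C + |C'|, fun x hx => ?_⟩
  have h1 := hC x hx
  have h2 := hC' x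
  have h3 : Chebyshev.theta x ≤ Chebyshev.psi x := Chebyshev.theta_le_psi x
  have h4 : Real.sqrt x ≤ x ^ θ := by
    rw [Real.sqrt_eq_rpow]
    exact Real.rpow_le_rpow_of_exponent_le hx hhalf
  have h5 : C' * Real.sqrt x ≤ |C'| * x ^ θ :=
    mul_le_mul (le_abs_self _) h4 (Real.sqrt_nonneg _) (abs_nonneg _)
  have h6 : |Chebyshev.theta x - x| ≤ |Chebyshev.psi x - x| + (Chebyshev.psi x - Chebyshev.theta x) := by
    have h7 := abs_sub_abs_le_abs_sub (Chebyshev.theta x - x) (Chebyshev.psi x - x)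
    have h8 : |Chebyshev.theta x - x - (Chebyshev.psi x - x)| =
        Chebyshev.psi x - Chebyshev.theta x := by
      rw [abs_of_nonpos] <;> linarith
    linarith
  calc |Chebyshev.theta x - x| ≤ C * x ^ θ + |C'| * x ^ θ := by linarith
    _ = (C + |C'|) * x ^ θ := by ring

end Pool.Agent.H231R2.Nic
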